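import Mathlib
import Pool.Agent.Work.MP_35dab7_an.Main

/-!
MP_35dab7_an, Q1: the answer is negative. There are a simply connected proper subdomain of the
plane, a base point and an analytic dilatation of modulus at most `k < 1` with two distinct
normalized harmonic maps of the unit disc onto that domain.

The domain is the plane minus two parallel half-lines. Both maps are horizontal shears
`Re K + i Im F` of conformal maps of the right half-plane onto the plane minus two parallel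
half-lines, with the same dilatation.
-/

set_option autoImplicit false

open Complex Set Metric

namespace Pool.Agent.Results.MP_35dab7_an.TwoSolutions

/-- `f` is a sense-preserving univalent harmonic map of the unit disc onto `Ω` with dilatation
`ω`, with `f 0 = w₀` and positive `z`-derivative at the origin. Here `f = h + conj g` with `h`, `g`
analytic, so the `z`-derivative of `f` is `deriv h`, the dilatation is `deriv g / deriv h`, and
sense-preserving means `‖deriv g‖ < ‖deriv h‖`. -/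
def IsSolution (Ω : Set ℂ) (ω : ℂ → ℂ) (w₀ : ℂ) (f : ℂ → ℂ) : Prop :=
  ∃ h g : ℂ → ℂ,
    DifferentiableOn ℂ h (ball 0 1) ∧ DifferentiableOn ℂ g (ball 0 1) ∧
    (∀ z ∈ ball (0 : ℂ) 1, f z = h z + (starRingEnd ℂ) (g z)) ∧
    (∀ z ∈ ball (0 : ℂ) 1, ‖deriv g z‖ < ‖deriv h z‖) ∧
    (∀ z ∈ ball (0 : ℂ) 1, deriv g z = ω z * deriv h z) ∧
    InjOn f (ball 0 1) ∧ f '' ball 0 1 = Ω ∧ f 0 = w₀ ∧
    0 < (deriv h 0).re ∧ (deriv h 0).im = 0

end Pool.Agent.Results.MP_35dab7_an.TwoSolutions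

open Pool.Agent.Results.MP_35dab7_an.TwoSolutions in
/-- Two distinct solutions for the same data. -/
theorem Pool.Agent.Results.MP_35dab7_an.TwoSolutions.result :
    ∃ (Ω : Set ℂ) (w₀ : ℂ) (ω : ℂ → ℂ) (k : ℝ) (f₁ f₂ : ℂ → ℂ),
      IsOpen Ω ∧ IsSimplyConnected Ω ∧ Ω ≠ univ ∧ w₀ ∈ Ω ∧
      DifferentiableOn ℂ ω (ball 0 1) ∧ k < 1 ∧ (∀ z ∈ ball (0 : ℂ) 1, ‖ω z‖ ≤ k) ∧
      IsSolution Ω ω w₀ f₁ ∧ IsSolution Ω ω w₀ f₂ ∧ ∃ z ∈ ball (0 : ℂ) 1, f₁ z ≠ f₂ z := by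
  obtain ⟨Ω, w₀, ω, k, h₁, g₁, h₂, g₂, a1, a2, a3, a4, a5, a6, a7, d1, d2, z, hz, hne⟩ :=
    Pool.Agent.H35.main
  obtain ⟨b1, b2, b3, b4, b5, b6, b7, b8, b9⟩ := d1
  obtain ⟨c1, c2, c3, c4, c5, c6, c7, c8, c9⟩ := d2
  exact ⟨Ω, w₀, ω, k, fun z => h₁ z + (starRingEnd ℂ) (g₁ z),
    fun z => h₂ z + (starRingEnd ℂ) (g₂ z), a1, a2, a3, a4, a5, a6, a7,
    ⟨h₁, g₁, b1, b2, fun _ _ => rfl, b3, b4, b5, b6, b7, b8, b9⟩,
    ⟨h₂, g₂, c1, c2, fun _ _ => rfl, c3, c4, c5, c6, c7, c8, c9⟩, z, hz, hne⟩
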